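import Pool.Agent.H465.CG.Stm2

/-!
# Task CG-8 (helper643, for helper465): the analytic data with real shifts in the gamma factors

Adapted from `Pool.Agent.H465.PT.HD.deg`.
-/

set_option autoImplicit false

open MeasureTheory Metric Set Filter Topology Asymptotics
open scoped Real ENNReal ComplexConjugate
open NumberField IsDedekindDomain

namespace Pool.Agent.H643.CG8

open Pool.Agent.Y773 (LI)
open Pool.Agent.H465.PT
open Pool.Agent.H465.CG

/-- the constant of `gr_log` -/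
noncomputable def gM (M T : ℝ) : ℝ := (gr_log (T + |M|)).choose

lemma gM_nonneg (M T : ℝ) : 0 ≤ gM M T := (gr_log (T + |M|)).choose_spec.1

lemma gM_le {M T : ℝ} {s : ℂ} (h1 : 1 / 2 ≤ s.re) (h2 : ‖s‖ ≤ T) {e : ℝ} (he0 : 0 ≤ e)
    (he : e ≤ M) : |Real.log ‖Complex.Gammaℝ (s + e)‖| ≤ gM M T := by
  refine (gr_log (T + |M|)).choose_spec.2 _ ?_ ?_
  · rw [Complex.add_re, Complex.ofReal_re]
    linarith
  · refine (norm_add_le _ _).trans ?_
    rw [Complex.norm_real, Real.norm_of_nonneg he0]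
    have := le_abs_self M
    linarith

/-- bounds on vertical lines -/
lemma grM_bd (M : ℝ) : ∃ G : ℝ, 1 ≤ G ∧ (∀ s : ℂ, 1 ≤ s.re → s.re ≤ 5 / 4 → ∀ e : ℝ, 0 ≤ e →
    e ≤ M → ‖Complex.Gammaℝ (s + e)‖ ≤ G) ∧
    ∀ s : ℂ, 1 ≤ s.re → s.re ≤ 5 / 4 → ‖s‖ * ‖s - 1‖ * ‖Complex.Gammaℝ s‖ ≤ G := by
  obtain ⟨C, hC, h⟩ := Pool.Agent.R399.TW.gam_bd (a := 1 / 8) (b := 8 + |M|) (by norm_num)
  refine ⟨max G₀ C, G₀_one.trans (le_max_left _ _), fun s h1 h2 e he0 he => ?_, fun s h1 h2 => ?_⟩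
  · refine le_trans ?_ (le_max_right _ _)
    have hM := le_abs_self M
    refine h _ ?_ ?_
    · rw [Complex.add_re, Complex.ofReal_re]
      linarith
    · rw [Complex.add_re, Complex.ofReal_re]
      linarith
  · exact (gr_bd.choose_spec.2.2 s h1 h2).trans (le_max_left _ _)

/-- the constant of `grM_bd` -/
noncomputable def GM (M : ℝ) : ℝ := (grM_bd M).choose

/-- the constants of the Hecke L-functions -/
noncomputable def cM (M T : ℝ) : ℝ :=
  gM M T + |Real.log (1 / 2)| + |Real.log T| + Real.log (GM M)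

lemma GM_one (M : ℝ) : 1 ≤ GM M := (grM_bd M).choose_spec.1

lemma cM_nonneg (M T : ℝ) : 0 ≤ cM M T := by
  have := gM_nonneg M T
  have := Real.log_nonneg (GM_one M)
  unfold cM
  positivity

section
variable {K : Type} [Field K] [NumberField K]

lemma gam_prod_log {μ : (K →+* ℂ) → ℝ} {M : ℝ} (h0 : ∀ φ, 0 ≤ μ φ) (hM : ∀ φ, μ φ ≤ M) {T : ℝ}
    {s : ℂ} (h1 : 1 / 2 ≤ s.re) (h2 : ‖s‖ ≤ T) : ∏ φ, Complex.Gammaℝ (s + μ φ) ≠ 0 ∧
      |Real.log ‖∏ φ, Complex.Gammaℝ (s + μ φ)‖| ≤ Module.finrank ℚ K * gM M T := by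
  have h3 : ∀ φ, Complex.Gammaℝ (s + μ φ) ≠ 0 := fun φ => by
    refine Complex.Gammaℝ_ne_zero_of_re_pos ?_
    rw [Complex.add_re, Complex.ofReal_re]
    have := h0 φ
    linarith
  refine ⟨Finset.prod_ne_zero_iff.2 fun φ _ => h3 φ, ?_⟩
  rw [norm_prod, Real.log_prod fun φ _ => norm_ne_zero_iff.2 (h3 φ)]
  refine (Finset.abs_sum_le_sum_abs _ _).trans ?_
  calc ∑ φ, |Real.log ‖Complex.Gammaℝ (s + μ φ)‖| ≤ ∑ _φ : K →+* ℂ, gM M T :=
        Finset.sum_le_sum fun φ _ => gM_le h1 h2 (h0 φ) (hM φ)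
    _ = _ := by
        rw [Finset.sum_const, nsmul_eq_mul, Finset.card_univ, card_emb']

theorem deg {M : ℝ} {ψ : Ideal (𝓞 K) →*₀ ℂ} {k : ℕ} {μ : (K →+* ℂ) → ℝ} {R : ℝ}
    {Λ F L : ℂ → ℂ} (h : HM ψ k M μ R Λ F) (hL : IsCont ψ L) :
    Deg (cM M) BB k (Module.finrank ℚ K) (Real.log R) Λ L := by
  set n := Module.finrank ℚ K with hn
  have hn1 : 1 ≤ n := Module.finrank_pos
  have hn1' : (1 : ℝ) ≤ n := by exact_mod_cast hn1
  have hk1 : (k : ℝ) ≤ 1 := by exact_mod_cast h.k1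
  have hk0 : (0 : ℝ) ≤ k := by positivity
  have hG1 := GM_one M
  have hGl : 0 ≤ Real.log (GM M) := Real.log_nonneg hG1
  have h0 : ∀ φ, 0 ≤ μ φ := fun φ => by
    rcases h.mu φ with h1 | h1
    · exact h1.ge
    · linarith
  have hγ : ∀ s : ℂ, 0 < s.re → ∏ φ, Complex.Gammaℝ (s + μ φ) ≠ 0 := fun s hs => by
    refine Finset.prod_ne_zero_iff.2 fun φ _ => Complex.Gammaℝ_ne_zero_of_re_pos ?_
    rw [Complex.add_re, Complex.ofReal_re]
    have := h0 φ
    linarith
  have hs0 : ∀ s : ℂ, 0 < s.re → s ≠ 0 := fun s hs => by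
    rintro rfl
    simp at hs
  refine ⟨h.k1.trans hn1, h.entL, fun s _ h1 => hL.dif s h1, h.sym, h.grow, ?_, ?_, ?_⟩
  · refine ⟨fun s => s ^ k * ∏ φ, Complex.Gammaℝ (s + μ φ), fun s hs => ⟨?_, ?_⟩, fun s hs h1 => ?_,
      fun T s h1 h2 => ?_, fun s h1 h2 => ?_⟩
    · refine (differentiableAt_id.pow _).mul ?_
      refine DifferentiableAt.fun_finsetProd fun φ _ => ?_
      refine (gr_diff ?_).comp s (differentiableAt_id.add_const _)
      simp only [id_eq, Complex.add_re, Complex.ofReal_re]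
      have := h0 φ
      linarith
    · exact mul_ne_zero (pow_ne_zero _ (hs0 s hs)) (hγ s hs)
    · rw [h.fac s hs, cont_eq hL h.entF h.ser h1, rpow_exp h.R1]
      ring
    · have hsn : 1 / 2 ≤ ‖s‖ := by
        have := Complex.abs_re_le_norm s
        have := le_abs_self s.re
        linarith
      obtain ⟨h3, h4⟩ := gam_prod_log h0 h.muM h1 h2
      have h5 : s ≠ 0 := hs0 s (by linarith)
      have h6 := abs_log_le (by norm_num) hsn h2
      rw [norm_mul, Real.log_mul (norm_ne_zero_iff.2 (pow_ne_zero _ h5)) (norm_ne_zero_iff.2 h3),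
        norm_pow, Real.log_pow]
      refine (abs_add_le _ _).trans ?_
      rw [abs_mul, abs_of_nonneg hk0]
      have h7 : (k : ℝ) * |Real.log ‖s‖| ≤ n * (|Real.log (1 / 2)| + |Real.log T|) :=
        mul_le_mul (hk1.trans hn1') h6 (abs_nonneg _) (by positivity)
      have h8 : 0 ≤ (n : ℝ) * Real.log (GM M) := by positivity
      unfold cM
      calc (k : ℝ) * |Real.log ‖s‖| + |Real.log ‖∏ φ, Complex.Gammaℝ (s + μ φ)‖| ≤
            n * (|Real.log (1 / 2)| + |Real.log T|) + n * gM M T := add_le_add h7 h4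
        _ ≤ n * (|Real.log (1 / 2)| + |Real.log T|) + n * gM M T + n * Real.log (GM M) := by linarith
        _ = _ := by ring
    · have h3 : ∀ φ, ‖Complex.Gammaℝ (s + μ φ)‖ ≤ GM M := fun φ =>
        (grM_bd M).choose_spec.2.1 s h1 h2 (μ φ) (h0 φ) (h.muM φ)
      have key : ‖s ^ k * ∏ φ, Complex.Gammaℝ (s + μ φ)‖ * ‖s - 1‖ ^ k ≤ GM M ^ n := by
        rcases Nat.eq_zero_or_pos k with hk | hk
        · rw [hk, pow_zero, one_mul, pow_zero, mul_one, norm_prod]
          calc ∏ φ, ‖Complex.Gammaℝ (s + μ φ)‖ ≤ ∏ _φ : K →+* ℂ, GM M :=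
                Finset.prod_le_prod (fun φ _ => norm_nonneg _) fun φ _ => h3 φ
            _ = GM M ^ n := by rw [Finset.prod_const, Finset.card_univ, card_emb']
        · have hk1' : k = 1 := le_antisymm h.k1 hk
          obtain ⟨φ₀, hφ₀⟩ := h.k0 hk1'
          classical
          rw [hk1', pow_one, pow_one, norm_mul, norm_prod,
            ← Finset.mul_prod_erase _ _ (Finset.mem_univ φ₀)]
          have h4 : ∏ φ ∈ Finset.univ.erase φ₀, ‖Complex.Gammaℝ (s + μ φ)‖ ≤ GM M ^ (n - 1) := by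
            calc ∏ φ ∈ Finset.univ.erase φ₀, ‖Complex.Gammaℝ (s + μ φ)‖ ≤
                  ∏ _φ ∈ Finset.univ.erase φ₀, GM M :=
                  Finset.prod_le_prod (fun φ _ => norm_nonneg _) fun φ _ => h3 φ
              _ = GM M ^ (n - 1) := by
                  rw [Finset.prod_const, Finset.card_erase_of_mem (Finset.mem_univ _),
                    Finset.card_univ, card_emb']
          have h5 := (grM_bd M).choose_spec.2.2 s h1 h2
          rw [hφ₀, Complex.ofReal_zero, add_zero]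
          calc ‖s‖ * (‖Complex.Gammaℝ s‖ * ∏ φ ∈ Finset.univ.erase φ₀, ‖Complex.Gammaℝ (s + μ φ)‖) *
                ‖s - 1‖ = (‖s‖ * ‖s - 1‖ * ‖Complex.Gammaℝ s‖) *
                  ∏ φ ∈ Finset.univ.erase φ₀, ‖Complex.Gammaℝ (s + μ φ)‖ := by ring
            _ ≤ GM M * GM M ^ (n - 1) := by
                refine mul_le_mul h5 h4 (Finset.prod_nonneg fun φ _ => norm_nonneg _) (by linarith)
            _ = GM M ^ n := by
                rw [← pow_succ']
                congr 1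
                omega
      refine key.trans ?_
      have e1 : GM M ^ n = Real.exp (n * Real.log (GM M)) := by
        rw [Real.exp_nat_mul, Real.exp_log (by linarith)]
      rw [e1]
      refine Real.exp_le_exp.2 (mul_le_mul_of_nonneg_left ?_ (by positivity))
      unfold cM
      have := gM_nonneg M 0
      have := abs_nonneg (Real.log (1 / 2))
      have := abs_nonneg (Real.log 0)
      linarith
  · intro ϑ s hϑ hs
    rw [hL.ser s (by linarith)]
    exact LI_bound h.le hϑ hs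
  · intro s hs
    rw [h.fac s (by linarith)]
    refine mul_ne_zero (mul_ne_zero (pow_ne_zero _ (hs0 s (by linarith))) ?_) (h.one s hs)
    refine mul_ne_zero ?_ (hγ s (by linarith))
    rw [rpow_exp h.R1]
    exact Complex.exp_ne_zero _

end

theorem t : SHMdeg := fun M =>
  ⟨cM M, cM_nonneg M, fun _ _ _ _ _ _ _ _ _ _ h hL => deg h hL⟩

end Pool.Agent.H643.CG8
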